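import Pool.Agent.ACK.StmtsD

/-!
# Squad ACK, row AUT: the automorphisms of the two patterns
-/

set_option autoImplicit false

namespace Pool.Agent.ACK.H46

open Pool.Agent.ACK Pool.Agent.ACK.D

theorem aut : AutStmt := by
  unfold AutStmt tau
  refine ⟨by decide +kernel, by decide +kernel, by decide, by decide⟩

end Pool.Agent.ACK.H46
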