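import Pool.Agent.ACK.StmtsA

/-!
# Squad ACK, row CLS: circles of size 2 are bigons
-/

set_option autoImplicit false

namespace Pool.Agent.ACK.H46

open Pool.Agent.ACK

theorem bg_symm {n : ℕ} (w : ZMod n → ℕ) (s : ℕ → Bool) (p q : ZMod n) (h : Bg w s p q) :
    Bg w s q p := by
  obtain ⟨h0, h1 | h1⟩ := h
  · obtain ⟨a, b, c, d⟩ := h1
    exact ⟨Ne.symm h0, Or.inl ⟨by rw [c, a], by rw [d, b], c.symm, d.symm⟩⟩
  · obtain ⟨a, b, c, d, e, f⟩ := h1
    exact ⟨Ne.symm h0, Or.inr ⟨by rw [c, b], by rw [d, a], d.symm, c.symm, f, e⟩⟩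

theorem cls (mte : MteStmt) : ClsStmt := by
  intro n _ w s hw hl
  obtain ⟨f, g, h1, h2, h3, h4, h5, h6⟩ := mte n w s hw hl
  constructor
  · intro p q hpq
    have hqp := bg_symm w s p q hpq
    obtain ⟨fp, gp⟩ := (h6 p q).1 hpq
    obtain ⟨fq, gq⟩ := (h6 q p).1 hqp
    refine ⟨hqp, ?_⟩
    intro r
    constructor
    · intro hr
      have hinv : ∀ a b : ZMod n, CR w s a b → ((a = p ∨ a = q) = (b = p ∨ b = q)) := by
        intro a b hab
        obtain ⟨c1, c2⟩ := h3 a b hab
        apply propext
        constructor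
        · rintro (ha | ha)
          · rw [ha, fp, gp] at c1
            right
            rcases c1 with c | c <;> exact c
          · rw [ha, fq, gq] at c1
            left
            rcases c1 with c | c <;> exact c
        · rintro (hb | hb)
          · rw [hb, fp, gp] at c2
            right
            rcases c2 with c | c <;> exact c
          · rw [hb, fq, gq] at c2
            left
            rcases c2 with c | c <;> exact c
      have hlift : ∀ a b : ZMod n, cl w s a = cl w s b → ((a = p ∨ a = q) = (b = p ∨ b = q)) := by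
        intro a b hab
        have := congrArg (Quot.lift (fun a : ZMod n => (a = p ∨ a = q)) hinv) hab
        exact this
      rw [hlift r p hr]
      left
      rfl
    · rintro (hr | hr)
      · rw [hr]
      · rw [hr, ← fp]
        exact (h2 p).1
  · intro p hp
    have hne : f p ≠ g p := by
      intro h
      exact hp (f p) ((h6 p (f p)).2 ⟨rfl, h.symm⟩)
    refine ⟨f p, g p, ?_, (h2 p).1, (h2 p).2⟩
    simp [Ne.symm (h1 p).1, Ne.symm (h1 p).2, hne]

end Pool.Agent.ACK.H46
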