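import Pool.Agent.ACK.StmtsD

/-!
# Squad ACK, row EUL: the inequality of Euler
-/

set_option autoImplicit false

namespace Pool.Agent.ACK.H46

open Pool.Agent.ACK Pool.Agent.ACK.D Module

/-- functions which are constant on the circles of `s` -/
def As {n : ℕ} (w : ZMod n → ℕ) (s : ℕ → Bool) : Submodule (ZMod 2) (ZMod n → ZMod 2) where
  carrier := {g | ∀ p q, CR w s p q → g p = g q}
  add_mem' := by
    intro a b ha hb p q h
    simp only [Pi.add_apply, ha p q h, hb p q h]
  zero_mem' := by
    intro p q _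
    rfl
  smul_mem' := by
    intro r a ha p q h
    simp only [Pi.smul_apply, ha p q h]

/-- functions which are equal at partners -/
def Us {n : ℕ} (w : ZMod n → ℕ) : Submodule (ZMod 2) (ZMod n → ZMod 2) where
  carrier := {g | ∀ i j, w i = w j → g i = g j}
  add_mem' := by
    intro a b ha hb p q h
    simp only [Pi.add_apply, ha p q h, hb p q h]
  zero_mem' := by
    intro p q _
    rfl
  smul_mem' := by
    intro r a ha p q h
    simp only [Pi.smul_apply, ha p q h]

/-- the sums at the positions -/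
def Ds (n : ℕ) : (ZMod n → ZMod 2) →ₗ[ZMod 2] (ZMod n → ZMod 2) where
  toFun g := fun i => g (i - 1) + g i
  map_add' := by
    intro a b
    funext i
    simp only [Pi.add_apply]
    ring
  map_smul' := by
    intro r a
    funext i
    simp only [Pi.smul_apply, smul_eq_mul, RingHom.id_apply]
    ring

theorem nc_le {n : ℕ} [NeZero n] (w : ZMod n → ℕ) (s : ℕ → Bool) :
    nc w s ≤ finrank (ZMod 2) (As w s) := by
  classical
  haveI : Finite (Quot (CR w s)) := Finite.of_surjective (Quot.mk (CR w s)) Quot.mk_surjective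
  haveI : Fintype (Quot (CR w s)) := Fintype.ofFinite _
  let f : (Quot (CR w s) → ZMod 2) →ₗ[ZMod 2] As w s :=
    { toFun := fun h => ⟨fun p => h (Quot.mk _ p), by
        intro p q hpq
        show h (Quot.mk _ p) = h (Quot.mk _ q)
        rw [Quot.sound hpq]⟩
      map_add' := by
        intro a b
        rfl
      map_smul' := by
        intro r a
        rfl }
  have hf : Function.Injective f := by
    intro a b h
    funext q
    obtain ⟨p, rfl⟩ := Quot.mk_surjective q
    have h1 := congrArg (fun g : As w s => g.1 p) h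
    exact h1
  have h1 := LinearMap.finrank_le_finrank_of_injective hf
  rw [Module.finrank_fintype_fun_eq_card] at h1
  unfold nc
  rw [Nat.card_eq_fintype_card]
  exact h1

theorem card_image {c : ℕ} (hc : 1 ≤ c) (w : ZMod (2 * c) → ℕ) (hw : Gf w) [Fintype (ZMod (2 * c))] :
    (Finset.univ.image w).card = c := by
  classical
  haveI : NeZero (2 * c) := ⟨by omega⟩
  have h1 : (Finset.univ : Finset (ZMod (2 * c))).card
      = ∑ x ∈ Finset.univ.image w, (Finset.univ.filter fun i => w i = x).card :=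
    Finset.card_eq_sum_card_image w Finset.univ
  have h2 : ∀ x ∈ Finset.univ.image w, (Finset.univ.filter fun i => w i = x).card = 2 := by
    intro x hx
    obtain ⟨i, -, rfl⟩ := Finset.mem_image.1 hx
    obtain ⟨j, hj, hij, hk⟩ := hw i
    have : (Finset.univ.filter fun k => w k = w i) = {i, j} := by
      ext k
      simp only [Finset.mem_filter, Finset.mem_univ, true_and, Finset.mem_insert,
        Finset.mem_singleton]
      constructor
      · exact hk k
      · rintro (h | h)
        · rw [h]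
        · rw [h, hij]
    rw [this, Finset.card_pair (Ne.symm hj)]
  rw [Finset.sum_congr rfl h2, Finset.sum_const, smul_eq_mul, Finset.card_univ] at h1
  have h3 : Fintype.card (ZMod (2 * c)) = 2 * c := by
    rw [← Nat.card_eq_fintype_card, Nat.card_zmod]
  rw [h3] at h1
  omega

theorem us_le {c : ℕ} (hc : 1 ≤ c) (w : ZMod (2 * c) → ℕ) (hw : Gf w) :
    finrank (ZMod 2) (Us w) ≤ c := by
  classical
  haveI : NeZero (2 * c) := ⟨by omega⟩
  haveI : Fintype (ZMod (2 * c)) := Fintype.ofFinite _
  have hcard := card_image hc w hw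
  have hrep : ∀ x : {x // x ∈ Finset.univ.image w}, ∃ i, w i = x.1 := by
    intro x
    obtain ⟨i, -, h⟩ := Finset.mem_image.1 x.2
    exact ⟨i, h⟩
  choose r hr using hrep
  let f : Us w →ₗ[ZMod 2] ({x // x ∈ Finset.univ.image w} → ZMod 2) :=
    { toFun := fun h x => h.1 (r x)
      map_add' := by
        intro a b
        rfl
      map_smul' := by
        intro a b
        rfl }
  have hf : Function.Injective f := by
    intro a b h
    apply Subtype.ext
    funext i
    have hm : w i ∈ Finset.univ.image w := Finset.mem_image_of_mem _ (Finset.mem_univ _)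
    have h1 := congrFun h ⟨w i, hm⟩
    have h2 : a.1 i = a.1 (r ⟨w i, hm⟩) := a.2 _ _ (hr ⟨w i, hm⟩).symm
    have h3 : b.1 i = b.1 (r ⟨w i, hm⟩) := b.2 _ _ (hr ⟨w i, hm⟩).symm
    rw [h2, h3]
    exact h1
  have h1 := LinearMap.finrank_le_finrank_of_injective hf
  rw [Module.finrank_fintype_fun_eq_card, Fintype.card_coe, hcard] at h1
  exact h1

theorem const_of {n : ℕ} [NeZero n] (g : ZMod n → ZMod 2) (h : ∀ i, g (i - 1) = g i) (i : ZMod n) :
    g i = g 0 := by
  have h1 : ∀ k : ℕ, g (k : ZMod n) = g 0 := by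
    intro k
    induction k with
    | zero => rw [Nat.cast_zero]
    | succ k ih =>
      rw [← ih, ← h ((k + 1 : ℕ) : ZMod n)]
      congr 1
      push_cast
      ring
  have h2 := h1 i.val
  rw [ZMod.natCast_zmod_val] at h2
  exact h2

theorem comap_le {c : ℕ} (hc : 1 ≤ c) (w : ZMod (2 * c) → ℕ) (hw : Gf w) :
    finrank (ZMod 2) ((Us w).comap (Ds (2 * c))) ≤ c + 1 := by
  classical
  haveI : NeZero (2 * c) := ⟨by omega⟩
  let f : (Us w).comap (Ds (2 * c)) →ₗ[ZMod 2] (Us w × ZMod 2) :=
    { toFun := fun g => (⟨Ds (2 * c) g.1, g.2⟩, g.1 0)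
      map_add' := by
        intro a b
        refine Prod.ext (Subtype.ext ?_) rfl
        exact map_add (Ds (2 * c)) a.1 b.1
      map_smul' := by
        intro r a
        refine Prod.ext (Subtype.ext ?_) rfl
        exact map_smul (Ds (2 * c)) r a.1 }
  have hf : Function.Injective f := by
    intro a b h
    have h0 : f (a - b) = 0 := by rw [map_sub, h, sub_self]
    have h1 : Ds (2 * c) (a.1 - b.1) = 0 := by
      have := congrArg (fun z : Us w × ZMod 2 => (z.1 : ZMod (2 * c) → ZMod 2)) h0
      exact this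
    have h2 : (a.1 - b.1) 0 = 0 := by
      have := congrArg (fun z : Us w × ZMod 2 => z.2) h0
      exact this
    apply Subtype.ext
    rw [← sub_eq_zero]
    funext i
    have h3 : ∀ i, (a.1 - b.1) (i - 1) = (a.1 - b.1) i := by
      intro i
      have h4 : (a.1 - b.1) (i - 1) + (a.1 - b.1) i = 0 := congrFun h1 i
      have h5 : ∀ x y : ZMod 2, x + y = 0 → x = y := by decide
      exact h5 _ _ h4
    rw [const_of _ h3 i, h2]
    rfl
  have h1 := LinearMap.finrank_le_finrank_of_injective hf
  rw [Module.finrank_prod, Module.finrank_self] at h1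
  have h2 := us_le hc w hw
  omega

theorem as_le {n : ℕ} (w : ZMod n → ℕ) (hw : Gf w) (s : ℕ → Bool) :
    As w s ≤ (Us w).comap (Ds n) := by
  intro g hg i j hij
  show g (i - 1) + g i = g (j - 1) + g j
  by_cases h : i = j
  · rw [h]
  · by_cases hs : s (w i) = true
    · have h1 : g (i - 1) = g j := hg _ _ ⟨i, j, h, hij, Or.inl ⟨hs, rfl, rfl⟩⟩
      have h2 : g (j - 1) = g i := hg _ _ ⟨j, i, Ne.symm h, hij.symm, Or.inl ⟨by rw [← hij]; exact hs, rfl, rfl⟩⟩
      rw [h1, h2, add_comm]
    · have hs' : s (w i) = false := by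
        cases hh : s (w i)
        · rfl
        · exact absurd hh hs
      have h1 : g (i - 1) = g (j - 1) := hg _ _ ⟨i, j, h, hij, Or.inr ⟨hs', Or.inl ⟨rfl, rfl⟩⟩⟩
      have h2 : g i = g j := hg _ _ ⟨i, j, h, hij, Or.inr ⟨hs', Or.inr ⟨rfl, rfl⟩⟩⟩
      rw [h1, h2]

theorem inf_le {n : ℕ} [NeZero n] (w : ZMod n → ℕ) (hw : Gf w) (s : ℕ → Bool) :
    finrank (ZMod 2) (As w s ⊓ As w (op s) : Submodule (ZMod 2) (ZMod n → ZMod 2)) ≤ 1 := by
  classical
  let f : (As w s ⊓ As w (op s) : Submodule (ZMod 2) (ZMod n → ZMod 2)) →ₗ[ZMod 2] ZMod 2 :=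
    { toFun := fun g => g.1 0
      map_add' := by
        intro a b
        rfl
      map_smul' := by
        intro r a
        rfl }
  have key : ∀ g : (As w s ⊓ As w (op s) : Submodule (ZMod 2) (ZMod n → ZMod 2)),
      ∀ i, g.1 (i - 1) = g.1 i := by
    intro g i
    obtain ⟨j, hj, hij, -⟩ := hw i
    have hij' : w i = w j := hij.symm
    have hg1 : ∀ p q, CR w s p q → g.1 p = g.1 q := g.2.1
    have hg2 : ∀ p q, CR w (op s) p q → g.1 p = g.1 q := g.2.2
    cases hs : s (w i)
    · have ho : op s (w i) = true := by simp [op, hs]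
      have h1 : g.1 (i - 1) = g.1 j := hg2 _ _ ⟨i, j, Ne.symm hj, hij', Or.inl ⟨ho, rfl, rfl⟩⟩
      have h2 : g.1 i = g.1 j := hg1 _ _ ⟨i, j, Ne.symm hj, hij', Or.inr ⟨hs, Or.inr ⟨rfl, rfl⟩⟩⟩
      rw [h1, h2]
    · have ho : op s (w i) = false := by simp [op, hs]
      have h1 : g.1 (i - 1) = g.1 j := hg1 _ _ ⟨i, j, Ne.symm hj, hij', Or.inl ⟨hs, rfl, rfl⟩⟩
      have h2 : g.1 i = g.1 j := hg2 _ _ ⟨i, j, Ne.symm hj, hij', Or.inr ⟨ho, Or.inr ⟨rfl, rfl⟩⟩⟩
      rw [h1, h2]
  have hf : Function.Injective f := by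
    intro a b h
    apply Subtype.ext
    funext i
    rw [const_of a.1 (key a) i, const_of b.1 (key b) i]
    exact h
  have h1 := LinearMap.finrank_le_finrank_of_injective hf
  rw [Module.finrank_self] at h1
  exact h1

theorem eul : EulStmt := by
  intro c w hc hw s
  haveI : NeZero (2 * c) := ⟨by omega⟩
  have h1 := nc_le w s
  have h2 := nc_le w (op s)
  have h3 := Submodule.finrank_sup_add_finrank_inf_eq (As w s) (As w (op s))
  have h4 := inf_le w hw s
  have h5 : finrank (ZMod 2) (As w s ⊔ As w (op s) : Submodule (ZMod 2) (ZMod (2 * c) → ZMod 2))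
      ≤ c + 1 := by
    refine le_trans (Submodule.finrank_mono ?_) (comap_le hc w hw)
    exact sup_le (as_le w hw s) (as_le w hw (op s))
  omega

end Pool.Agent.ACK.H46
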