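import Pool.Agent.ACK.StmtsD

/-!
# Squad ACK, row ILF: interlacement and flypes
-/

set_option autoImplicit false

namespace Pool.Agent.ACK.H46

open Pool.Agent.ACK Pool.Agent.ACK.D

theorem fl_rep (l : List ℕ) (x z : ℕ) (hx : x ∉ l) : fl l x z = List.replicate (l.count z) z := by
  unfold fl
  rw [← List.filter_beq]
  apply List.filter_congr
  intro t ht
  have h1 : t ≠ x := fun h => hx (h ▸ ht)
  simp only [h1, false_or]
  by_cases h : t = z
  · simp [h]
  · simp [h]

theorem fl_comm (l : List ℕ) (x y : ℕ) : fl l x y = fl l y x := by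
  unfold fl
  apply List.filter_congr
  intro t _
  simp only [or_comm]

theorem il_comm (l : List ℕ) (x y : ℕ) : Il l x y ↔ Il l y x := by
  unfold Il
  rw [fl_comm l x y]
  constructor
  · rintro ⟨h1, h2⟩
    exact ⟨Ne.symm h1, h2.symm⟩
  · rintro ⟨h1, h2⟩
    exact ⟨Ne.symm h1, h2.symm⟩

theorem fl_cons_self (l : List ℕ) (x z : ℕ) : fl (x :: l) x z = x :: fl l x z := by
  unfold fl
  rw [List.filter_cons_of_pos]
  simp

theorem fl_cons_ne (l : List ℕ) (x y z : ℕ) (h1 : x ≠ y) (h2 : x ≠ z) : fl (x :: l) y z = fl l y z := by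
  unfold fl
  rw [List.filter_cons_of_neg]
  simp [h1, h2]

theorem fl_append (a b : List ℕ) (x y : ℕ) : fl (a ++ b) x y = fl a x y ++ fl b x y := by
  unfold fl
  rw [List.filter_append]

/-- it is enough to compare pairs with the letter `x`, and the filters of the other pairs -/
theorem red (l l' : List ℕ) (x : ℕ) (h1 : ∀ y z, x ≠ y → x ≠ z → fl l y z = fl l' y z)
    (h2 : ∀ z, x ≠ z → (Il l x z ↔ Il l' x z)) (y z : ℕ) : Il l y z ↔ Il l' y z := by
  by_cases hy : x = y
  · subst hy
    by_cases hz : x = z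
    · subst hz
      unfold Il
      simp
    · exact h2 z hz
  · by_cases hz : x = z
    · subst hz
      rw [il_comm l, il_comm l']
      exact h2 y hy
    · unfold Il
      rw [h1 y z hy hz]

/-- the possible numbers -/
theorem nums (U A V B : List ℕ) (z : ℕ) (h1 : Gw (U ++ V))
    (h2 : z ∈ U ∨ z ∈ A ∨ z ∈ V ∨ z ∈ B → U.count z + A.count z + V.count z + B.count z = 2) :
    (U.count z = 2 ∧ V.count z = 0 ∧ A.count z = 0 ∧ B.count z = 0) ∨
    (U.count z = 1 ∧ V.count z = 1 ∧ A.count z = 0 ∧ B.count z = 0) ∨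
    (U.count z = 0 ∧ V.count z = 2 ∧ A.count z = 0 ∧ B.count z = 0) ∨
    (U.count z = 0 ∧ V.count z = 0 ∧ A.count z = 2 ∧ B.count z = 0) ∨
    (U.count z = 0 ∧ V.count z = 0 ∧ A.count z = 1 ∧ B.count z = 1) ∨
    (U.count z = 0 ∧ V.count z = 0 ∧ A.count z = 0 ∧ B.count z = 2) ∨
    (U.count z = 0 ∧ V.count z = 0 ∧ A.count z = 0 ∧ B.count z = 0) := by
  by_cases hUV : z ∈ U ++ V
  · have h3 := h1 z hUV
    rw [List.count_append] at h3
    have h4 : z ∈ U ∨ z ∈ A ∨ z ∈ V ∨ z ∈ B := by
      rcases List.mem_append.1 hUV with h | h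
      · exact Or.inl h
      · exact Or.inr (Or.inr (Or.inl h))
    have h5 := h2 h4
    omega
  · have hU : U.count z = 0 := List.count_eq_zero.2 (fun h => hUV (List.mem_append.2 (Or.inl h)))
    have hV : V.count z = 0 := List.count_eq_zero.2 (fun h => hUV (List.mem_append.2 (Or.inr h)))
    by_cases hA : z ∈ A
    · have h5 := h2 (Or.inr (Or.inl hA))
      have h6 := List.count_pos_iff.2 hA
      omega
    · have hA' : A.count z = 0 := List.count_eq_zero.2 hA
      by_cases hB : z ∈ B
      · have h5 := h2 (Or.inr (Or.inr (Or.inr hB)))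
        omega
      · have hB' : B.count z = 0 := List.count_eq_zero.2 hB
        omega

/-- the letter `x` is not in the four parts -/
theorem notin (l : List ℕ) (x : ℕ) (U A V B : List ℕ) (hl : Gw l) (hx : x ∈ l)
    (hc : l.count x = U.count x + A.count x + V.count x + B.count x + 2) :
    x ∉ U ∧ x ∉ A ∧ x ∉ V ∧ x ∉ B := by
  have h1 := hl x hx
  refine ⟨?_, ?_, ?_, ?_⟩ <;>
  · intro h
    have := List.count_pos_iff.2 h
    omega

theorem ilf : IlfStmt := by
  intro x U A V B hUV
  refine ⟨?_, ?_, ?_⟩
  · intro hl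
    have hx : x ∉ U ∧ x ∉ A ∧ x ∉ V ∧ x ∉ B := by
      refine notin _ x U A V B hl (by simp) ?_
      simp only [List.count_cons, List.count_append, beq_self_eq_true, if_true]
      ring
    obtain ⟨hU, hA, hV, hB⟩ := hx
    refine red _ _ x ?_ ?_
    · intro y z hy hz
      simp only [fl_append, fl_cons_ne _ x y z hy hz]
      try simp only [List.append_assoc]
    · intro z hz
      have hn := nums U A V B z hUV (by
        intro h
        have h3 : z ∈ x :: (U ++ (A ++ x :: (V ++ B))) := by
          simp only [List.mem_cons, List.mem_append]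
          tauto
        have h4 := hl z h3
        have h5 : (x == z) = false := by simp [hz]
        simp only [List.count_cons, List.count_append, h5] at h4
        simp at h4
        omega)
      unfold Il
      simp only [fl_append, fl_cons_self, fl_rep _ x z hU, fl_rep _ x z hA, fl_rep _ x z hV,
        fl_rep _ x z hB]
      rcases hn with ⟨a, b, c, d⟩ | ⟨a, b, c, d⟩ | ⟨a, b, c, d⟩ | ⟨a, b, c, d⟩ | ⟨a, b, c, d⟩ |
        ⟨a, b, c, d⟩ | ⟨a, b, c, d⟩ <;>
      · simp only [a, b, c, d]
        simp [List.replicate, hz, Ne.symm hz]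
  · intro hl
    have hx : x ∉ U ∧ x ∉ A ∧ x ∉ V ∧ x ∉ B := by
      refine notin _ x U A V B hl (by simp) ?_
      simp only [List.count_cons, List.count_append, beq_self_eq_true, if_true]
      ring
    obtain ⟨hU, hA, hV, hB⟩ := hx
    refine red _ _ x ?_ ?_
    · intro y z hy hz
      simp only [fl_append, fl_cons_ne _ x y z hy hz]
      try simp only [List.append_assoc]
    · intro z hz
      have hn := nums U A V B z hUV (by
        intro h
        have h3 : z ∈ x :: (U ++ (A ++ (V ++ x :: B))) := by
          simp only [List.mem_cons, List.mem_append]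
          tauto
        have h4 := hl z h3
        have h5 : (x == z) = false := by simp [hz]
        simp only [List.count_cons, List.count_append, h5] at h4
        simp at h4
        omega)
      unfold Il
      simp only [fl_append, fl_cons_self, fl_rep _ x z hU, fl_rep _ x z hA, fl_rep _ x z hV,
        fl_rep _ x z hB]
      rcases hn with ⟨a, b, c, d⟩ | ⟨a, b, c, d⟩ | ⟨a, b, c, d⟩ | ⟨a, b, c, d⟩ | ⟨a, b, c, d⟩ |
        ⟨a, b, c, d⟩ | ⟨a, b, c, d⟩ <;>
      · simp only [a, b, c, d]
        simp [List.replicate, hz, Ne.symm hz]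
  · intro hl
    have hx : x ∉ U ∧ x ∉ A ∧ x ∉ V ∧ x ∉ B := by
      refine notin _ x U A V B hl (by simp) ?_
      simp only [List.count_cons, List.count_append, beq_self_eq_true, if_true]
      ring
    obtain ⟨hU, hA, hV, hB⟩ := hx
    refine red _ _ x ?_ ?_
    · intro y z hy hz
      simp only [fl_append, fl_cons_ne _ x y z hy hz]
      try simp only [List.append_assoc]
    · intro z hz
      have hn := nums U A V B z hUV (by
        intro h
        have h3 : z ∈ x :: (U ++ x :: (A ++ (V ++ B))) := by
          simp only [List.mem_cons, List.mem_append]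
          tauto
        have h4 := hl z h3
        have h5 : (x == z) = false := by simp [hz]
        simp only [List.count_cons, List.count_append, h5] at h4
        simp at h4
        omega)
      unfold Il
      simp only [fl_append, fl_cons_self, fl_rep _ x z hU, fl_rep _ x z hA, fl_rep _ x z hV,
        fl_rep _ x z hB]
      rcases hn with ⟨a, b, c, d⟩ | ⟨a, b, c, d⟩ | ⟨a, b, c, d⟩ | ⟨a, b, c, d⟩ | ⟨a, b, c, d⟩ |
        ⟨a, b, c, d⟩ | ⟨a, b, c, d⟩ <;>
      · simp only [a, b, c, d]
        simp [List.replicate, hz, Ne.symm hz]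

end Pool.Agent.ACK.H46
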