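import Pool.Agent.Helper46_ACK.ILF

/-!
# Squad ACK, row TWC: letters of one chain are twins
-/

set_option autoImplicit false

namespace Pool.Agent.ACK.H46

open Pool.Agent.ACK Pool.Agent.ACK.D

theorem rep_iff (x z : ℕ) (h : x ≠ z) (p q r : ℕ) :
    (List.replicate p z ++ x :: (List.replicate q z ++ x :: List.replicate r z) = [x, z, x, z] ∨
      List.replicate p z ++ x :: (List.replicate q z ++ x :: List.replicate r z) = [z, x, z, x]) ↔
      (p = 0 ∧ q = 1 ∧ r = 1) ∨ (p = 1 ∧ q = 1 ∧ r = 0) := by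
  constructor
  · intro h1
    have hl : p + q + r = 2 := by
      have h2 : (List.replicate p z ++ x :: (List.replicate q z ++ x :: List.replicate r z)).length = 4 := by
        rcases h1 with h1 | h1 <;> rw [h1] <;> rfl
      simp at h2
      omega
    have hp : p ≤ 2 := by omega
    have hq : q ≤ 2 := by omega
    interval_cases p <;> interval_cases q <;>
    · first
      | (have hr : r = 0 := by omega
         subst hr
         revert h1
         simp [List.replicate, h, Ne.symm h])
      | (have hr : r = 1 := by omega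
         subst hr
         revert h1
         simp [List.replicate, h, Ne.symm h])
      | (have hr : r = 2 := by omega
         subst hr
         revert h1
         simp [List.replicate, h, Ne.symm h])
      | (exfalso; omega)
  · rintro (⟨rfl, rfl, rfl⟩ | ⟨rfl, rfl, rfl⟩)
    · left; rfl
    · right; rfl

/-- two letters of a list without repetitions -/
theorem fl_two (L : List ℕ) (hL : L.Nodup) (x z : ℕ) (hx : x ∈ L) (hz : z ∈ L) (h : x ≠ z) :
    fl L x z = [x, z] ∨ fl L x z = [z, x] := by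
  obtain ⟨A, B, rfl⟩ := List.append_of_mem hx
  have hA : x ∉ A := by
    intro h1
    exact (List.nodup_append.1 hL).2.2 x h1 x (by simp) rfl
  have hB : x ∉ B := (List.nodup_cons.1 (List.nodup_append.1 hL).2.1).1
  have hc : (A ++ x :: B).count z = 1 := List.count_eq_one_of_mem hL hz
  rw [fl_append, fl_cons_self, fl_rep _ x z hA, fl_rep _ x z hB]
  rw [List.count_append, List.count_cons_of_ne h] at hc
  have h2 : A.count z ≤ 1 := by omega
  rcases Nat.le_one_iff_eq_zero_or_eq_one.1 h2 with h3 | h3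
  · have h4 : B.count z = 1 := by omega
    rw [h3, h4]
    left; rfl
  · have h4 : B.count z = 0 := by omega
    rw [h3, h4]
    right; rfl

theorem fl_reverse (l : List ℕ) (x y : ℕ) : fl l.reverse x y = (fl l x y).reverse := by
  unfold fl
  rw [List.filter_reverse]

/-- the word with two blocks -/
theorem core (p q r L E1 E2 : List ℕ) (d1 d2 : Bool) (hL : L.Nodup)
    (h1 : E1 = if d1 then L.reverse else L) (h2 : E2 = if d2 then L.reverse else L)
    (hp : ∀ t ∈ L, t ∉ p) (hq : ∀ t ∈ L, t ∉ q) (hr : ∀ t ∈ L, t ∉ r) (x y z : ℕ) (hx : x ∈ L)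
    (hy : y ∈ L) (hzx : z ≠ x) (hzy : z ≠ y) :
    (Il (p ++ (E1 ++ (q ++ (E2 ++ r)))) x z ↔ Il (p ++ (E1 ++ (q ++ (E2 ++ r)))) y z) := by
  have hm : ∀ (d : Bool) (t : ℕ), t ∈ (if d then L.reverse else L) ↔ t ∈ L := by
    intro d t
    cases d <;> simp
  have hn : ∀ d : Bool, (if d then L.reverse else L).Nodup := by
    intro d
    cases d
    · simpa using hL
    · simpa using hL
  by_cases hz : z ∈ L
  · have key : ∀ u ∈ L, z ≠ u → (Il (p ++ (E1 ++ (q ++ (E2 ++ r)))) u z ↔ d1 = d2) := by
      intro u hu hzu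
      have e1 : ∀ l : List ℕ, (∀ t ∈ L, t ∉ l) → fl l u z = [] := by
        intro l hl
        rw [fl_rep l u z (hl u hu), List.count_eq_zero.2 (hl z hz)]
        rfl
      unfold Il
      rw [fl_append, fl_append, fl_append, fl_append, e1 p hp, e1 q hq, e1 r hr, h1, h2]
      rcases fl_two L hL u z hu hz (Ne.symm hzu) with h3 | h3 <;> cases d1 <;> cases d2 <;>
        simp [fl_reverse, h3, hzu, Ne.symm hzu]
    rw [key x hx hzx, key y hy hzy]
  · have key : ∀ u ∈ L, z ≠ u → (Il (p ++ (E1 ++ (q ++ (E2 ++ r)))) u z ↔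
        ((p.count z = 0 ∧ q.count z = 1 ∧ r.count z = 1) ∨
          (p.count z = 1 ∧ q.count z = 1 ∧ r.count z = 0))) := by
      intro u hu hzu
      have e2 : ∀ d : Bool, fl (if d then L.reverse else L) u z = [u] := by
        intro d
        rw [fl_comm, fl_rep _ z u (fun h => hz ((hm d z).1 h)),
          List.count_eq_one_of_mem (hn d) ((hm d u).2 hu)]
        rfl
      unfold Il
      rw [fl_append, fl_append, fl_append, fl_append, fl_rep p u z (hp u hu), fl_rep q u z (hq u hu),
        fl_rep r u z (hr u hu), h1, h2, e2, e2]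
      have h5 := rep_iff u z (Ne.symm hzu) (p.count z) (q.count z) (r.count z)
      simp only [List.cons_append, List.nil_append]
      rw [h5]
      constructor
      · rintro ⟨-, h6⟩
        exact h6
      · intro h6
        exact ⟨Ne.symm hzu, h6⟩
    rw [key x hx hzx, key y hy hzy]

/-- decomposition at the two tokens of a chain -/
theorem split (b : List Tk) (t : Tk) (ht : t ∈ b) (h : (b.map Prod.fst).count t.1 = 2) :
    ∃ (P Q R : List Tk) (t1 t2 : Tk), b = P ++ t1 :: (Q ++ t2 :: R) ∧ t1.1 = t.1 ∧ t2.1 = t.1 ∧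
      (∀ u ∈ P, u.1 ≠ t.1) ∧ (∀ u ∈ Q, u.1 ≠ t.1) ∧ ∀ u ∈ R, u.1 ≠ t.1 := by
  have hne : ∀ l : List Tk, (l.map Prod.fst).count t.1 = 0 → ∀ u ∈ l, u.1 ≠ t.1 := by
    intro l hl u hu he
    exact (List.count_eq_zero.1 hl) (he ▸ List.mem_map_of_mem hu)
  obtain ⟨P, Q, rfl⟩ := List.append_of_mem ht
  rw [List.map_append, List.map_cons, List.count_append, List.count_cons_self] at h
  by_cases hP : (P.map Prod.fst).count t.1 = 0
  · have hQ : (Q.map Prod.fst).count t.1 = 1 := by omega
    have hm : t.1 ∈ Q.map Prod.fst := by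
      rw [← List.count_pos_iff, hQ]
      norm_num
    obtain ⟨t2, ht2, e2⟩ := List.mem_map.1 hm
    obtain ⟨Q1, R, rfl⟩ := List.append_of_mem ht2
    rw [List.map_append, List.map_cons, List.count_append, e2, List.count_cons_self] at hQ
    exact ⟨P, Q1, R, t, t2, rfl, rfl, e2, hne P hP, hne Q1 (by omega), hne R (by omega)⟩
  · have hQ : (Q.map Prod.fst).count t.1 = 0 := by omega
    have hP1 : (P.map Prod.fst).count t.1 = 1 := by omega
    have hm : t.1 ∈ P.map Prod.fst := by
      rw [← List.count_pos_iff, hP1]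
      norm_num
    obtain ⟨t1, ht1, e1⟩ := List.mem_map.1 hm
    obtain ⟨P1, Q1, rfl⟩ := List.append_of_mem ht1
    rw [List.map_append, List.map_cons, List.count_append, e1, List.count_cons_self] at hP1
    exact ⟨P1, Q1, Q, t1, t, by simp, e1, rfl, hne P1 (by omega), hne Q1 (by omega), hne Q hQ⟩

theorem notin_BL (C : ℕ → List ℕ) (b l : List Tk) (hC : CW C b) (hl : ∀ u ∈ l, u ∈ b) (t : Tk)
    (ht : t ∈ b) (hne : ∀ u ∈ l, u.1 ≠ t.1) : ∀ x ∈ C t.1, x ∉ BL C l := by
  intro x hx h
  unfold BL at h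
  obtain ⟨u, hu, hxu⟩ := List.mem_flatMap.1 h
  have h1 : x ∈ C u.1 := by
    unfold bk at hxu
    cases h2 : u.2
    · simpa [h2] using hxu
    · simpa [h2] using hxu
  exact (hC.dj u (hl u hu) t ht (hne u hu)) h1 hx

theorem twc : TwcStmt := by
  intro C b hC t ht x hx y hy z hzx hzy
  have hc : (b.map Prod.fst).count t.1 = 2 := hC.tw t.1 (List.mem_map_of_mem ht)
  obtain ⟨P, Q, R, t1, t2, hb, e1, e2, hP, hQ, hR⟩ := split b t ht hc
  have hBL : BL C b = BL C P ++ (bk C t1 ++ (BL C Q ++ (bk C t2 ++ BL C R))) := by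
    rw [hb]
    unfold BL
    simp [List.flatMap_append, List.flatMap_cons]
  rw [hBL]
  refine core (BL C P) (BL C Q) (BL C R) (C t.1) (bk C t1) (bk C t2) t1.2 t2.2 (hC.nd t ht) ?_ ?_
    ?_ ?_ ?_ x y z hx hy hzx hzy
  · unfold bk
    rw [e1]
  · unfold bk
    rw [e2]
  · exact notin_BL C b P hC (by intro u hu; rw [hb]; simp [hu]) t ht hP
  · exact notin_BL C b Q hC (by intro u hu; rw [hb]; simp [hu]) t ht hQ
  · exact notin_BL C b R hC (by intro u hu; rw [hb]; simp [hu]) t ht hR

end Pool.Agent.ACK.H46
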