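import Pool.Agent.Helper46_ACK.EUL
import Pool.Agent.Helper46_ACK.AUT
import Pool.Agent.Helper46_ACK.TWC
import Pool.Agent.Helper27_ACK.ILB
import Pool.Agent.Helper77_ACK.ILM
import Pool.Agent.Helper11_ACK.ILF
import Pool.Agent.Helper19_ACK.GWM
import Pool.Agent.Helper6_ACK.ILG
import Pool.Agent.Helper92_ACK.FOU
import Pool.Agent.Helper85_ACK.TWN
import Pool.Agent.Helper95_ACK.WCL
import Pool.Agent.Helper25_ACK.WIL
import Pool.Agent.Helper10_ACK.WPR
import Pool.Agent.Helper45_ACK.WCH
import Pool.Agent.Helper24_ACK.LAB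
import Pool.Agent.Helper64_ACK.WPL
import Pool.Agent.Helper62_ACK.WKN
import Pool.Agent.Helper89_ACK.SAB
import Pool.Agent.Helper69_ACK.FIB
import Pool.Agent.Helper70_ACK.CNT
import Pool.Agent.Helper50_ACK.LOW

/-!
# Squad ACK, composition of part D: the lower bound from FEW and GFW
-/

set_option autoImplicit false

namespace Pool.Agent.ACK.H46

open Pool.Agent.ACK Pool.Agent.ACK.D

theorem partD (few : FewStmt) (gfw : GfwStmt) : LowStmt := by
  have hilg : IlgStmt := H6.ilg H27.ilb H77.ilm H11.ilf H19.gwm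
  have hfou : FouStmt := H92.fou few H27.ilb twc
  have hwpr : WprStmt := H10.wpr H27.ilb H95.wcl H25.wil
  have hwpl : WplStmt := H64.wpl H95.wcl H45.wch H24.lab eul gfw
  have hwkn : WknStmt := H62.wkn H95.wcl H25.wil hwpr hwpl hfou
  have hfib : FibStmt := H69.fib hilg H85.twn H95.wcl H25.wil aut
  exact H50.low hwkn hfib H89.sab H70.cnt

end Pool.Agent.ACK.H46
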