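import Pool.Agent.ACK.StmtsC

/-!
# Squad ACK, row UPP: result of the parts C and E
-/

set_option autoImplicit false

namespace Pool.Agent.ACK.H46

open Pool.Agent.ACK Pool.Agent.ACK.C

theorem exists_mem_zip : ∀ (l l' : List Tk), l.length = l'.length → ∀ t' ∈ l', ∃ t, (t, t') ∈ l.zip l'
  | [], [], _, t', h => by simp at h
  | [], _ :: _, hl, _, _ => by simp at hl
  | _ :: _, [], hl, _, _ => by simp at hl
  | a :: l, a' :: l', hl, t', h => by
    rcases List.mem_cons.1 h with h1 | h1
    · exact ⟨a, by rw [h1]; simp⟩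
    · obtain ⟨t, ht⟩ := exists_mem_zip l l' (by simpa using hl) t' h1
      exact ⟨t, by rw [List.zip_cons_cons]; exact List.mem_cons_of_mem _ ht⟩

theorem rvs_length (l : List Tk) : (rvs l).length = l.length := by
  simp [rvs]

theorem sy_length (b b' : List Tk) (h : b' ∈ sy b) : b'.length = b.length := by
  unfold sy at h
  rcases List.mem_append.1 h with h1 | h1
  · obtain ⟨k, -, rfl⟩ := List.mem_map.1 h1
    simp
  · obtain ⟨k, -, rfl⟩ := List.mem_map.1 h1
    simp [rvs_length]

theorem bE_lt : ∀ t ∈ bE, t.1 < 6 := by decide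

theorem bE_mem (e : ℕ) (he : e < 6) : ∃ t ∈ bE, t.1 = e := by
  interval_cases e <;> decide

/-- the last step for the standard word -/
theorem last_step (cwg : CwgStmt) (std : StdStmt) (c : ℕ) (C : ℕ → List ℕ) (hC : CW C bE)
    (hl : (BL C bE).length = 2 * c)
    (hp : ∀ e < 6, decide (Odd (C e).length) = pE e) (h01 : (C 0).length ≤ (C 1).length) :
    ∃ a : Fin 6 → ℕ, Qe c a ∧ Quot.mk Mv (BL C bE) =
      Quot.mk Mv (BL (sc 6 (fun e => if h : e < 6 then a ⟨e, h⟩ else 0)) bE) := by
  have hodd : ∀ e < 6, pE e = true → Odd (C e).length := by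
    intro e he h
    have h1 := hp e he
    rw [h] at h1
    exact of_decide_eq_true h1
  have heven : ∀ e < 6, pE e = false → Even (C e).length := by
    intro e he h
    have h1 := hp e he
    rw [h] at h1
    exact Nat.not_odd_iff_even.1 (of_decide_eq_false h1)
  refine ⟨fun i => (C i.1).length, ⟨?_, ?_, ?_, ?_, ?_, ?_, ?_, ?_, ?_⟩, ?_⟩
  · intro e
    obtain ⟨t, ht, hte⟩ := bE_mem e.1 e.2
    have h1 := hC.ne t ht
    rw [hte] at h1
    exact List.length_pos_iff.2 h1
  · have h1 := (cwg C bE hC).2.1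
    rw [hl] at h1
    rw [Fin.sum_univ_six]
    simp [bE] at h1
    show (C 0).length + (C 1).length + (C 2).length + (C 3).length + (C 4).length + (C 5).length = c
    omega
  · exact heven 0 (by norm_num) (by decide)
  · exact heven 1 (by norm_num) (by decide)
  · exact hodd 2 (by norm_num) (by decide)
  · exact hodd 3 (by norm_num) (by decide)
  · exact hodd 4 (by norm_num) (by decide)
  · exact hodd 5 (by norm_num) (by decide)
  · exact h01
  · rw [std 6 C bE (by norm_num) hC bE_lt]
    rfl

theorem upp (cwg : CwgStmt) (std : StdStmt) (dfs : DfsStmt) (prm : PrmStmt) (wht : WhtStmt)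
    (nrm : NrmStmt) (fin : FinStmt) (mtc : MtcStmt) (sym : SymStmt) (exx : ExxStmt)
    (par : ParStmt) : UppStmt := by
  intro c C0 b0 s hc h0
  obtain ⟨C, b, hBL, hS, hnz, h6⟩ := nrm c C0 b0 s h0
  rw [← hBL]
  obtain ⟨R, hR⟩ := dfs c C b s hS hnz
  have hfa : finall b.reverse = true := fin (b.reverse, R) hR
  have hnp := prm c C b s hS
  have hfin := par c C b s hc hS h6 hnp hfa
  have hw := wht c C b s hS
  rw [hS.co] at hw
  unfold Pool.Agent.ACK.C.fin at hfin
  rw [List.reverse_reverse] at hfin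
  have hb : Nat.blt (wn (fun e => decide (Odd (C e).length)) b.reverse) 4 = false := by
    rw [Bool.eq_false_iff]
    intro h
    rw [Nat.blt_eq] at h
    omega
  rw [hb, Bool.false_or] at hfin
  have hlen : (BL C b).length = 2 * c := hS.kn.len
  simp only [Bool.or_eq_true, List.any_eq_true, Bool.and_eq_true] at hfin
  rcases hfin with ⟨b', hb', hiso, hpar⟩ | ⟨b', hb', hiso⟩
  · right
    obtain ⟨C2, hC2, hq, hl, hz⟩ := mtc C b b' bE hS.cw hb' hiso hS.len
    rw [hlen] at hl
    have hlen' : b'.length = bE.length := by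
      rw [sy_length b b' hb', hS.len]
      rfl
    have hp : ∀ e < 6, decide (Odd (C2 e).length) = pE e := by
      intro e he
      obtain ⟨t', ht', hte⟩ := bE_mem e he
      obtain ⟨t, ht⟩ := exists_mem_zip b' bE hlen' t' ht'
      have h1 := hz _ ht
      unfold Pool.Agent.ACK.C.par at hpar
      have h2 := (List.all_eq_true.1 hpar) _ ht
      simp only [beq_iff_eq] at h2
      simp only at h1
      rw [hte] at h1 h2
      rw [h1, h2]
    rw [hq]
    by_cases h01 : (C2 0).length ≤ (C2 1).length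
    · exact last_step cwg std c C2 hC2 hl hp h01
    · obtain ⟨C3, hC3, hq3, hl3, e0, e1, e2, e3, e4, e5⟩ := sym C2 hC2
      rw [hq3]
      refine last_step cwg std c C3 hC3 (by rw [hl3, hl]) ?_ (by rw [e0, e1]; omega)
      intro e he
      interval_cases e
      · rw [e0, hp 1 (by norm_num)]; decide
      · rw [e1, hp 0 (by norm_num)]; decide
      · rw [e2, hp 2 (by norm_num)]
      · rw [e3, hp 5 (by norm_num)]; decide
      · rw [e4, hp 4 (by norm_num)]
      · rw [e5, hp 3 (by norm_num)]; decide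
  · left
    obtain ⟨C2, hC2, hq, hl, -⟩ := mtc C b b' bX hS.cw hb' hiso hS.len
    rw [hlen] at hl
    obtain ⟨l', hF, hq2⟩ := exx c C2 hC2 hl
    exact ⟨l', hF, hq.trans hq2⟩

end Pool.Agent.ACK.H46
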